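import Pool.Agent.Helper64.RN.Goals2

/-!
# Project RN part 2 (MP_d01c92_ag): goal LC
-/

set_option autoImplicit false

universe u

namespace Pool.Agent.Helper44.RN.LC

open Finset

/-- A set of `p` natural numbers has at least the sum of `0, …, p - 1`. -/
theorem range_le_sum : ∀ (p : ℕ) (s : Finset ℕ), s.card = p →
    (∑ x ∈ range p, x) ≤ ∑ x ∈ s, x ∧ ((∑ x ∈ s, x) = ∑ x ∈ range p, x → s = range p)
  | 0, s, hs => by
    rw [card_eq_zero] at hs
    subst hs
    exact ⟨le_refl _, fun _ => rfl⟩
  | p + 1, s, hs => by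
    have hne : s.Nonempty := by
      rw [← card_pos]
      omega
    set M := s.max' hne with hM
    have hMs : M ∈ s := s.max'_mem hne
    have hcard : (s.erase M).card = p := by
      rw [card_erase_of_mem hMs]
      omega
    have hMp : p ≤ M := by
      have h1 : s ⊆ range (M + 1) := by
        intro x hx
        have := s.le_max' x hx
        rw [mem_range]
        omega
      have h2 := card_le_card h1
      rw [card_range] at h2
      omega
    obtain ⟨h1, h2⟩ := range_le_sum p (s.erase M) hcard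
    have h3 : ∑ x ∈ s, x = M + ∑ x ∈ s.erase M, x := by
      rw [add_sum_erase _ (fun x => x) hMs]
    rw [sum_range_succ, h3]
    refine ⟨by omega, fun h => ?_⟩
    have h4 : M = p := by omega
    have h5 : (∑ x ∈ s.erase M, x) = ∑ x ∈ range p, x := by omega
    have h6 := h2 h5
    rw [← insert_erase hMs, h6, h4, range_add_one]

variable {A : Type u} [CommRing A] {p : ℕ} (w : Fin p → ℕ → A) (a : Fin p → A)

theorem coeff_det (m : ℕ) :
    PowerSeries.coeff m (Matrix.det (fun i l : Fin p => PowerSeries.mk (fun j => w i j * a l ^ j))) =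
      ∑ k ∈ finsuppAntidiag (univ : Finset (Fin p)) m,
        (∏ i, w i (k i)) * Matrix.det (fun i l : Fin p => a l ^ (k i)) := by
  rw [← Matrix.det_transpose, Matrix.det_apply, map_sum]
  have h1 : ∀ σ : Equiv.Perm (Fin p), PowerSeries.coeff m (Equiv.Perm.sign σ •
      ∏ i, Matrix.transpose (fun i l : Fin p => PowerSeries.mk (fun j => w i j * a l ^ j)) (σ i) i)
      = ∑ k ∈ finsuppAntidiag (univ : Finset (Fin p)) m,
        (∏ i, w i (k i)) * (Equiv.Perm.sign σ • ∏ i, a (σ i) ^ (k i)) := by
    intro σ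
    rw [Units.smul_def, map_zsmul, PowerSeries.coeff_prod, smul_sum]
    refine sum_congr rfl fun k _ => ?_
    rw [mul_smul_comm, Units.smul_def, ← prod_mul_distrib]
    congr 1
    refine prod_congr rfl fun i _ => ?_
    rw [Matrix.transpose_apply, PowerSeries.coeff_mk]
  rw [sum_congr rfl fun σ _ => h1 σ, sum_comm]
  refine sum_congr rfl fun k _ => ?_
  rw [← mul_sum]
  congr 1
  rw [← Matrix.det_transpose, Matrix.det_apply]
  rfl

theorem det_eq_zero {k : Fin p → ℕ} (hk : ¬ Function.Injective k) :
    Matrix.det (fun i l : Fin p => a l ^ (k i)) = 0 := by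
  rw [Function.not_injective_iff] at hk
  obtain ⟨i, j, hij, hne⟩ := hk
  refine Matrix.det_zero_of_row_eq hne ?_
  funext l
  rw [hij]

theorem sum_inj {k : Fin p → ℕ} (hk : Function.Injective k) :
    p * (p - 1) / 2 ≤ ∑ i, k i ∧
      (∑ i, k i = p * (p - 1) / 2 → ∀ i, k i < p) := by
  have h := range_le_sum p (univ.image k) (by rw [card_image_of_injective _ hk, card_univ,
    Fintype.card_fin])
  rw [sum_image (fun x _ y _ hxy => hk hxy), sum_range_id] at h
  refine ⟨h.1, fun h2 i => ?_⟩
  have h3 := h.2 h2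
  rw [← mem_range, ← h3]
  exact mem_image_of_mem _ (mem_univ i)

theorem lead :
    ∑ k ∈ finsuppAntidiag (univ : Finset (Fin p)) (p * (p - 1) / 2),
      (∏ i, w i (k i)) * Matrix.det (fun i l : Fin p => a l ^ (k i)) =
    Matrix.det (fun i j : Fin p => w i (j : ℕ)) * Matrix.det (fun i l : Fin p => a l ^ (i : ℕ)) := by
  have h1 : Matrix.det (fun i j : Fin p => w i (j : ℕ)) =
      ∑ σ : Equiv.Perm (Fin p), Equiv.Perm.sign σ • ∏ i, w i ((σ i : Fin p) : ℕ) := by
    rw [← Matrix.det_transpose, Matrix.det_apply]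
    rfl
  rw [h1, sum_mul]
  symm
  refine sum_of_injOn (fun σ : Equiv.Perm (Fin p) =>
    Finsupp.equivFunOnFinite.symm (fun i => ((σ i : Fin p) : ℕ))) ?_ ?_ ?_ ?_
  · intro σ _ τ _ h
    have h2 := Finsupp.equivFunOnFinite.symm.injective h
    ext i
    exact congrFun h2 i
  · intro σ _
    rw [mem_coe, mem_finsuppAntidiag]
    refine ⟨?_, subset_univ _⟩
    simp only [Finsupp.equivFunOnFinite_symm_apply_apply]
    rw [Equiv.sum_comp σ (fun i : Fin p => (i : ℕ)), Fin.sum_univ_eq_sum_range (fun i => i),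
      sum_range_id]
  · intro k hk hk2
    by_cases hinj : Function.Injective k
    · exfalso
      apply hk2
      rw [mem_finsuppAntidiag] at hk
      have h3 := (sum_inj hinj).2 hk.1
      have h4 : Function.Injective (fun i : Fin p => (⟨k i, h3 i⟩ : Fin p)) := by
        intro x y hxy
        exact hinj (congrArg Fin.val hxy)
      refine ⟨Equiv.ofBijective _ (Finite.injective_iff_bijective.1 h4), mem_coe.2 (mem_univ _), ?_⟩
      ext i
      simp only [Finsupp.equivFunOnFinite_symm_apply_apply]
      rfl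
    · rw [det_eq_zero a hinj, mul_zero]
  · intro σ _
    simp only [Finsupp.equivFunOnFinite_symm_apply_apply]
    have h5 := Matrix.det_permute σ (fun i l : Fin p => a l ^ (i : ℕ))
    have h6 : Matrix.submatrix (fun i l : Fin p => a l ^ (i : ℕ)) σ id =
        fun i l : Fin p => a l ^ ((σ i : Fin p) : ℕ) := rfl
    rw [h6] at h5
    rw [h5, Units.smul_def, zsmul_eq_mul]
    ring

theorem t : Pool.Agent.Helper64.RN.S_LC := by
  intro A _ p w a
  have hdvd : (PowerSeries.X : PowerSeries A) ^ (p * (p - 1) / 2) ∣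
      Matrix.det (fun i l : Fin p => PowerSeries.mk (fun j => w i j * a l ^ j)) := by
    rw [PowerSeries.X_pow_dvd_iff]
    intro m hm
    rw [coeff_det]
    refine sum_eq_zero fun k hk => ?_
    rw [mem_finsuppAntidiag] at hk
    have hinj : ¬ Function.Injective k := by
      intro hinj
      have h1 := (sum_inj hinj).1
      have h2 : ∑ i, k i = m := hk.1
      omega
    rw [det_eq_zero a hinj, mul_zero]
  obtain ⟨D, hD⟩ := hdvd
  refine ⟨D, hD, ?_⟩
  have h1 := coeff_det w a (p * (p - 1) / 2)
  rw [hD, lead] at h1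
  rw [← h1, PowerSeries.coeff_X_pow_mul', if_pos le_rfl, Nat.sub_self,
    PowerSeries.coeff_zero_eq_constantCoeff_apply]

end Pool.Agent.Helper44.RN.LC
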