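import Pool.Agent.Helper64.RN.Goals

/-!
# Project RN (MP_d01c92_ag), packet RS: restriction, contraction, monomial maps
-/

open scoped BigOperators

universe u

namespace Pool.Agent.Helper44.RN.RS

open Pool.Agent.Helper64.IG Pool.Agent.Helper64.RN

/-- The determinant of the vectors `t_e (1, z_e, …)`. -/
theorem det_eq {K : Type u} [Field K] {E : Type} {p : ℕ} (t z : E → K) (a : Fin p → E) :
    Matrix.det (fun i j : Fin p => t (a j) * z (a j) ^ (i : ℕ)) =
      (∏ j, t (a j)) * ∏ i : Fin p, ∏ j ∈ Finset.Ioi i, (z (a j) - z (a i)) := by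
  have h1 := Matrix.det_mul_row (fun j : Fin p => t (a j))
    (Matrix.transpose (Matrix.vandermonde (fun j : Fin p => z (a j))))
  rw [Matrix.det_transpose, Matrix.det_vandermonde] at h1
  exact h1

theorem t : S_RS.{u} := by
  refine ⟨?_, ?_, ?_⟩
  · rintro K _ n p ω ⟨c, t, z, h⟩
    exact ⟨c, t ∘ inc (Nat.le_succ n) le_rfl, z ∘ inc (Nat.le_succ n) le_rfl,
      fun a => h (inc (Nat.le_succ n) le_rfl ∘ a)⟩
  · rintro K _ n p ω ⟨c, t, z, h⟩
    refine ⟨c * t (Sum.inr (Fin.last p)), fun x => t (inc le_rfl (Nat.le_succ p) x) *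
      (z (inc le_rfl (Nat.le_succ p) x) - z (Sum.inr (Fin.last p))),
      z ∘ inc le_rfl (Nat.le_succ p), fun a => ?_⟩
    change ω (Fin.cons (Sum.inr (Fin.last p)) (inc le_rfl (Nat.le_succ p) ∘ a)) = _
    rw [h, det_eq, det_eq (fun x : Ix n p => t (inc le_rfl (Nat.le_succ p) x) *
      (z (inc le_rfl (Nat.le_succ p) x) - z (Sum.inr (Fin.last p))))
      (z ∘ inc le_rfl (Nat.le_succ p)) a, Fin.prod_univ_succ, Fin.prod_univ_succ,
      Finset.prod_mul_distrib]
    simp only [Fin.cons_zero, Fin.cons_succ, Function.comp_apply, Fin.prod_Ioi_zero,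
      Fin.prod_Ioi_succ]
    ring
  · rintro K _ n p ω σ T ⟨c, t, z, h⟩
    refine ⟨c, fun x => T x * t (σ x), z ∘ σ, fun a => ?_⟩
    change (∏ j, T (a j)) * ω (σ ∘ a) = _
    rw [h, det_eq, det_eq (fun x : Ix n p => T x * t (σ x)) (z ∘ σ) a, Finset.prod_mul_distrib]
    simp only [Function.comp_apply]
    ring

end Pool.Agent.Helper44.RN.RS
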